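import Mathlib

set_option autoImplicit false

/-!
Dense subsets of a power `Ω^d` come within Hamming distance `O(√d)` of most points.
-/

namespace Pool.Agent.HB75

open Finset

theorem spread {Ω : Type*} [Fintype Ω] (g : Ω → ℝ) (K : ℝ) (h : ∀ a b, |g a - g b| ≤ K) :
    (Fintype.card Ω : ℝ) * ∑ a, g a ^ 2 ≤ (∑ a, g a) ^ 2 + 1 / 2 * ((Fintype.card Ω : ℝ) * K) ^ 2 := by
  have h1 : ∑ a, ∑ b, (g a - g b) ^ 2 =
      2 * ((Fintype.card Ω : ℝ) * ∑ a, g a ^ 2) - 2 * (∑ a, g a) ^ 2 := by
    have : ∀ a b, (g a - g b) ^ 2 = g a ^ 2 + g b ^ 2 - 2 * (g a * g b) := fun a b => by ring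
    simp only [this, sum_add_distrib, sum_sub_distrib, sum_const, card_univ, nsmul_eq_mul,
      ← mul_sum, ← sum_mul]
    ring
  have h2 : ∑ a : Ω, ∑ b : Ω, (g a - g b) ^ 2 ≤ ∑ _a : Ω, ∑ _b : Ω, K ^ 2 := by
    apply sum_le_sum
    intro a _
    apply sum_le_sum
    intro b _
    rw [← sq_abs]
    exact pow_le_pow_left₀ (abs_nonneg _) (h a b) 2
  simp only [sum_const, card_univ, nsmul_eq_mul] at h2
  rw [h1] at h2
  nlinarith

section
variable {Ω : Type*} [DecidableEq Ω]

theorem hd_cons_left {d : ℕ} (a : Ω) (x y : Fin d → Ω) :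
    hammingDist (Fin.cons a x : Fin (d + 1) → Ω) (Fin.cons a y) ≤ hammingDist x y := by
  unfold hammingDist
  refine (card_le_card ?_).trans (card_image_le (s := univ.filter fun i => x i ≠ y i)
    (f := Fin.succ))
  intro i hi
  rw [mem_filter] at hi
  refine Fin.cases ?_ ?_ i hi.2
  · intro h
    exact absurd rfl h
  · intro j h
    rw [mem_image]
    exact ⟨j, by rw [mem_filter]; exact ⟨mem_univ _, by simpa using h⟩, rfl⟩

theorem hd_cons_right {d : ℕ} (a b : Ω) (x : Fin d → Ω) :
    hammingDist (Fin.cons a x : Fin (d + 1) → Ω) (Fin.cons b x) ≤ 1 := by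
  unfold hammingDist
  refine le_trans (card_le_card (t := ({0} : Finset (Fin (d + 1)))) ?_) (card_singleton _).le
  intro i hi
  rw [mem_filter] at hi
  refine Fin.cases ?_ ?_ i hi.2
  · intro _
    exact mem_singleton_self _
  · intro j h
    simp at h

/-- the variance of a function which is Lipschitz for the Hamming distance -/
theorem variance [Fintype Ω] : ∀ (d : ℕ) (f : (Fin d → Ω) → ℝ),
    (∀ x y, |f x - f y| ≤ hammingDist x y) →
    (Fintype.card (Fin d → Ω) : ℝ) * ∑ x, f x ^ 2 ≤
      (∑ x, f x) ^ 2 + d / 2 * (Fintype.card (Fin d → Ω) : ℝ) ^ 2 := by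
  intro d
  induction d with
  | zero =>
    intro f _
    simp
  | succ d ih =>
    intro f hf
    have hsum : ∀ F : (Fin (d + 1) → Ω) → ℝ, ∑ x, F x = ∑ a : Ω, ∑ y : Fin d → Ω, F (Fin.cons a y) := by
      intro F
      rw [← Fintype.sum_prod_type']
      exact (Equiv.sum_comp (Fin.consEquiv fun _ => Ω) F).symm
    have hcard : (Fintype.card (Fin (d + 1) → Ω) : ℝ) =
        Fintype.card Ω * Fintype.card (Fin d → Ω) := by
      rw [Fintype.card_fun, Fintype.card_fun, Fintype.card_fin, Fintype.card_fin]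
      push_cast
      ring
    rw [hsum, hsum, hcard]
    set M : ℝ := (Fintype.card Ω : ℝ) with hM
    set N : ℝ := (Fintype.card (Fin d → Ω) : ℝ) with hN
    have hM0 : 0 ≤ M := by positivity
    have hN0 : 0 ≤ N := by positivity
    have h1 : ∀ a : Ω, N * ∑ y : Fin d → Ω, f (Fin.cons a y) ^ 2 ≤
        (∑ y : Fin d → Ω, f (Fin.cons a y)) ^ 2 + d / 2 * N ^ 2 := by
      intro a
      apply ih (fun y => f (Fin.cons a y))
      intro x y
      refine (hf _ _).trans ?_
      exact_mod_cast hd_cons_left a x y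
    have h2 := spread (fun a : Ω => ∑ y : Fin d → Ω, f (Fin.cons a y)) N (by
      intro a b
      rw [← sum_sub_distrib]
      refine (abs_sum_le_sum_abs _ _).trans ?_
      calc ∑ y : Fin d → Ω, |f (Fin.cons a y) - f (Fin.cons b y)| ≤ ∑ _y : Fin d → Ω, (1 : ℝ) := by
            apply sum_le_sum
            intro y _
            refine (hf _ _).trans ?_
            exact_mod_cast hd_cons_right a b y
        _ = N := by rw [sum_const, card_univ, nsmul_eq_mul, mul_one])
    have h3 : N * ∑ a : Ω, ∑ y : Fin d → Ω, f (Fin.cons a y) ^ 2 ≤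
        ∑ a : Ω, (∑ y : Fin d → Ω, f (Fin.cons a y)) ^ 2 + M * (d / 2 * N ^ 2) := by
      rw [mul_sum]
      refine (sum_le_sum fun a _ => h1 a).trans ?_
      rw [sum_add_distrib, sum_const, card_univ, nsmul_eq_mul]
    have h4 := mul_le_mul_of_nonneg_left h3 hM0
    push_cast
    nlinarith

end

section
variable {Ω : Type*} [DecidableEq Ω] [Fintype Ω]

/-- distance to a set -/
noncomputable def dS {d : ℕ} (A : Finset (Fin d → Ω)) (hA : A.Nonempty) (x : Fin d → Ω) : ℕ :=
  A.inf' hA fun a => hammingDist x a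

theorem dS_lip {d : ℕ} (A : Finset (Fin d → Ω)) (hA : A.Nonempty) (x y : Fin d → Ω) :
    |(dS A hA x : ℝ) - dS A hA y| ≤ hammingDist x y := by
  have key : ∀ x y, dS A hA x ≤ dS A hA y + hammingDist x y := by
    intro x y
    obtain ⟨a, ha, h⟩ := exists_mem_eq_inf' hA fun a => hammingDist y a
    have h1 : dS A hA y = hammingDist y a := h
    rw [h1]
    refine (inf'_le _ ha).trans ?_
    rw [add_comm]
    exact hammingDist_triangle x y a
  have h1 := key x y
  have h2 := key y x
  rw [hammingDist_comm y x] at h2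
  have h1' : (dS A hA x : ℝ) ≤ dS A hA y + hammingDist x y := by exact_mod_cast h1
  have h2' : (dS A hA y : ℝ) ≤ dS A hA x + hammingDist x y := by exact_mod_cast h2
  rw [abs_le]
  constructor <;> linarith

theorem blowup {d : ℕ} (hd : 1 ≤ d) (A : Finset (Fin d → Ω)) (hA : A.Nonempty) {lam r : ℝ}
    (hlam : 0 < lam) (hcard : lam * Fintype.card (Fin d → Ω) ≤ A.card)
    (hr : √(d / (2 * lam)) + √(2 * d) ≤ r) :
    4 * (univ.filter fun x : Fin d → Ω => ∀ a ∈ A, r < hammingDist x a).card ≤
      Fintype.card (Fin d → Ω) := by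
  set N : ℝ := (Fintype.card (Fin d → Ω) : ℝ) with hN
  have hNpos : 0 < N := by
    obtain ⟨a, _⟩ := hA
    have : 0 < Fintype.card (Fin d → Ω) := Fintype.card_pos_iff.2 ⟨a⟩
    rw [hN]
    exact Nat.cast_pos.2 this
  have hdR : (1 : ℝ) ≤ d := by exact_mod_cast hd
  have hvar := variance d (fun x => (dS A hA x : ℝ)) (fun x y => dS_lip A hA x y)
  set m : ℝ := (∑ x, (dS A hA x : ℝ)) / N with hm
  have hsum : ∑ x, (dS A hA x : ℝ) = N * m := by rw [hm]; field_simp
  have hm0 : 0 ≤ m := div_nonneg (sum_nonneg fun x _ => Nat.cast_nonneg _) hNpos.le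
  have h1 : ∑ x, ((dS A hA x : ℝ) - m) ^ 2 ≤ d / 2 * N := by
    have h2 : ∑ x, ((dS A hA x : ℝ) - m) ^ 2 = ∑ x, (dS A hA x : ℝ) ^ 2 - N * m ^ 2 := by
      have : ∀ x, ((dS A hA x : ℝ) - m) ^ 2 = (dS A hA x : ℝ) ^ 2 - 2 * m * dS A hA x + m ^ 2 :=
        fun x => by ring
      simp only [this, sum_add_distrib, sum_sub_distrib, ← mul_sum, hsum, sum_const, card_univ,
        nsmul_eq_mul]
      ring
    rw [h2]
    rw [hsum] at hvar
    have h3 : N * (∑ x, (dS A hA x : ℝ) ^ 2 - N * m ^ 2) ≤ N * (d / 2 * N) := by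
      nlinarith
    exact le_of_mul_le_mul_left h3 hNpos
  -- on the set
  have h4 : m ≤ √(d / (2 * lam)) := by
    apply Real.le_sqrt_of_sq_le
    have h5 : (A.card : ℝ) * m ^ 2 ≤ d / 2 * N := by
      refine le_trans ?_ h1
      calc (A.card : ℝ) * m ^ 2 = ∑ x ∈ A, ((dS A hA x : ℝ) - m) ^ 2 := by
            rw [← nsmul_eq_mul, ← sum_const]
            apply sum_congr rfl
            intro x hx
            have : dS A hA x = 0 := by
              apply Nat.le_zero.1
              refine (inf'_le _ hx).trans ?_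
              simp
            rw [this]
            simp
        _ ≤ ∑ x, ((dS A hA x : ℝ) - m) ^ 2 :=
            sum_le_sum_of_subset_of_nonneg (subset_univ _) fun _ _ _ => sq_nonneg _
    have h6 : lam * N * m ^ 2 ≤ d / 2 * N :=
      (mul_le_mul_of_nonneg_right hcard (sq_nonneg m)).trans h5
    have h7 : lam * m ^ 2 ≤ d / 2 := by
      apply le_of_mul_le_mul_right _ hNpos
      linarith
    rw [le_div_iff₀ (by positivity)]
    linarith
  -- far away
  have h8 : ((univ.filter fun x : Fin d → Ω => ∀ a ∈ A, r < hammingDist x a).card : ℝ) * (2 * d) ≤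
      d / 2 * N := by
    refine le_trans ?_ h1
    calc ((univ.filter fun x : Fin d → Ω => ∀ a ∈ A, r < hammingDist x a).card : ℝ) * (2 * d)
        = ∑ _x ∈ univ.filter fun x : Fin d → Ω => ∀ a ∈ A, r < hammingDist x a, (2 * (d : ℝ)) := by
          rw [sum_const, nsmul_eq_mul]
      _ ≤ ∑ x ∈ univ.filter fun x : Fin d → Ω => ∀ a ∈ A, r < hammingDist x a,
            ((dS A hA x : ℝ) - m) ^ 2 := by
          apply sum_le_sum
          intro x hx
          rw [mem_filter] at hx
          obtain ⟨a, ha, h⟩ := exists_mem_eq_inf' hA fun a => hammingDist x a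
          have h9 : (dS A hA x : ℝ) = hammingDist x a := by
            have : dS A hA x = hammingDist x a := h
            rw [this]
          have h10 := hx.2 a ha
          have h11 : √(2 * d) ≤ (dS A hA x : ℝ) - m := by linarith
          calc (2 * (d : ℝ)) = √(2 * d) ^ 2 := (Real.sq_sqrt (by positivity)).symm
            _ ≤ _ := pow_le_pow_left₀ (Real.sqrt_nonneg _) h11 2
      _ ≤ ∑ x, ((dS A hA x : ℝ) - m) ^ 2 :=
          sum_le_sum_of_subset_of_nonneg (subset_univ _) fun _ _ _ => sq_nonneg _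
  have h12 : 4 * ((univ.filter fun x : Fin d → Ω => ∀ a ∈ A, r < hammingDist x a).card : ℝ) ≤ N := by
    have : (4 * ((univ.filter fun x : Fin d → Ω => ∀ a ∈ A, r < hammingDist x a).card : ℝ)) * d ≤
        N * d := by linarith
    exact le_of_mul_le_mul_right this (by linarith)
  rw [hN] at h12
  exact_mod_cast h12

/-- some point and its translates by `g` and by `h` are close to the set -/
theorem exists_near [AddGroup Ω] {d : ℕ} (hd : 1 ≤ d) (A : Finset (Fin d → Ω)) (hA : A.Nonempty)
    {lam r : ℝ} (hlam : 0 < lam) (hcard : lam * Fintype.card (Fin d → Ω) ≤ A.card)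
    (hr : √(d / (2 * lam)) + √(2 * d) ≤ r) (g h : Fin d → Ω) :
    ∃ X : Fin d → Ω, (∃ a ∈ A, (hammingDist X a : ℝ) ≤ r) ∧
      (∃ a ∈ A, (hammingDist (X + g) a : ℝ) ≤ r) ∧ ∃ a ∈ A, (hammingDist (X + h) a : ℝ) ≤ r := by
  by_contra hcon
  push Not at hcon
  have hb := blowup hd A hA hlam hcard hr
  set B := univ.filter fun x : Fin d → Ω => ∀ a ∈ A, r < hammingDist x a with hB
  have hcov : (univ : Finset (Fin d → Ω)) ⊆
      (B ∪ B.image (fun x => x - g)) ∪ B.image (fun x => x - h) := by
    intro X _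
    by_cases h1 : ∀ a ∈ A, r < hammingDist X a
    · exact mem_union_left _ (mem_union_left _ (mem_filter.2 ⟨mem_univ _, h1⟩))
    · push Not at h1
      by_cases h2 : ∀ a ∈ A, r < hammingDist (X + g) a
      · refine mem_union_left _ (mem_union_right _ (mem_image.2 ⟨X + g, ?_, by simp⟩))
        exact mem_filter.2 ⟨mem_univ _, h2⟩
      · push Not at h2
        refine mem_union_right _ (mem_image.2 ⟨X + h, ?_, by simp⟩)
        exact mem_filter.2 ⟨mem_univ _, hcon X h1 h2⟩
  have h3 := card_le_card hcov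
  have h4 := card_union_le (B ∪ B.image (fun x => x - g)) (B.image (fun x => x - h))
  have h5 := card_union_le B (B.image (fun x => x - g))
  have h6 := card_image_le (s := B) (f := fun x => x - g)
  have h7 := card_image_le (s := B) (f := fun x => x - h)
  have hpos : 0 < Fintype.card (Fin d → Ω) := by
    obtain ⟨a, _⟩ := hA
    exact Fintype.card_pos_iff.2 ⟨a⟩
  rw [card_univ] at h3
  omega

end

end Pool.Agent.HB75
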