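import Pool.Agent.HB75.Torus

set_option autoImplicit false

/-!
The threshold for bad triangles.
-/

namespace Pool.Agent.HB75

open Finset Filter Topology

theorem exists_M {δ : ℝ} (hδ : δ < 1) : ∃ m : ℕ, (1 + δ) < ‖1 + cc (1 : ZMod (m + 2))‖ := by
  have h1 : ∀ m : ℕ, cc (1 : ZMod (m + 2)) =
      Complex.exp (2 * Real.pi * Complex.I * 1 / ((m : ℂ) + 2)) := by
    intro m
    unfold cc
    have h := ZMod.toCircle_intCast (N := m + 2) 1
    push_cast at h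
    rw [h]
  have h2 : Tendsto (fun m : ℕ => 2 * (Real.pi : ℂ) * Complex.I * 1 / ((m : ℂ) + 2)) atTop
      (𝓝 0) := by
    have h3 : Tendsto (fun m : ℕ => ((m : ℂ) + 2)⁻¹) atTop (𝓝 0) := by
      have h4 : Tendsto (fun m : ℕ => (((m + 2 : ℕ) : ℝ))⁻¹) atTop (𝓝 0) :=
        (tendsto_inv_atTop_zero.comp tendsto_natCast_atTop_atTop).comp (tendsto_add_atTop_nat 2)
      have h5 := (Complex.continuous_ofReal.tendsto 0).comp h4
      rw [Complex.ofReal_zero] at h5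
      refine h5.congr fun m => ?_
      simp
    have h6 := h3.const_mul (2 * (Real.pi : ℂ) * Complex.I * 1)
    rw [mul_zero] at h6
    exact h6
  have h7 : Tendsto (fun m : ℕ => ‖1 + cc (1 : ZMod (m + 2))‖) atTop (𝓝 2) := by
    have h8 := (Complex.continuous_exp.tendsto 0).comp h2
    rw [Complex.exp_zero] at h8
    have h9 := (h8.const_add 1).norm
    have h10 : ‖(1 : ℂ) + 1‖ = 2 := by norm_num
    rw [h10] at h9
    refine h9.congr fun m => ?_
    simp only [Function.comp, h1]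
  exact (h7.eventually_const_lt (by linarith)).exists

theorem cc_one_ne {m : ℕ} : cc (1 : ZMod (m + 2)) ≠ 1 := by
  intro h
  have h1 : ZMod.toCircle (1 : ZMod (m + 2)) = ZMod.toCircle (0 : ZMod (m + 2)) := by
    rw [AddChar.map_zero_eq_one]
    exact Circle.ext (by simpa [cc] using h)
  have h2 := ZMod.injective_toCircle h1
  haveI : Fact (1 < m + 2) := ⟨by omega⟩
  exact (one_ne_zero : (1 : ZMod (m + 2)) ≠ 0) h2

/-- a quadratic inequality in the square root of the dimension -/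
theorem exists_d {η L : ℝ} (hη : 0 < η) : ∃ d : ℕ, 1 ≤ d ∧ L * √d ≤ η * d := by
  obtain ⟨d, hd⟩ := exists_nat_ge (max 1 ((L / η) ^ 2))
  have h1 : (1 : ℝ) ≤ d := (le_max_left _ _).trans hd
  have h2 : (L / η) ^ 2 ≤ d := (le_max_right _ _).trans hd
  refine ⟨d, by exact_mod_cast h1, ?_⟩
  have h3 : L / η ≤ √d := Real.le_sqrt_of_sq_le h2
  have h4 : L ≤ η * √d := by
    rw [div_le_iff₀ hη] at h3
    linarith
  calc L * √d ≤ η * √d * √d := mul_le_mul_of_nonneg_right h4 (Real.sqrt_nonneg _)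
    _ = η * d := by rw [mul_assoc, Real.mul_self_sqrt (by linarith)]

section
variable {H : Type*} [NormedAddCommGroup H] [InnerProductSpace ℝ H]

/-- two of the three distances are at most one, the remaining one is at least `1 + δ` -/
def Bad (δ : ℝ) (x y z : H) : Prop :=
  (‖x - y‖ ≤ 1 ∧ ‖y - z‖ ≤ 1 ∧ 1 + δ ≤ ‖x - z‖) ∨
  (‖x - y‖ ≤ 1 ∧ ‖x - z‖ ≤ 1 ∧ 1 + δ ≤ ‖y - z‖) ∨
  (‖x - z‖ ≤ 1 ∧ ‖y - z‖ ≤ 1 ∧ 1 + δ ≤ ‖x - y‖)

/-- dense subsets of the torus contain a bad triangle -/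
theorem fails {e : ℕ → H} (he : Orthonormal ℝ e) {δ lam : ℝ} (hδ0 : 0 < δ) (hδ : δ < 1)
    (hlam : 0 < lam) : ∃ n : ℕ, 1 ≤ n ∧ ∃ x : Fin n → H, ∀ I : Finset (Fin n),
    lam * n ≤ I.card → ∃ i ∈ I, ∃ j ∈ I, ∃ k ∈ I, i ≠ j ∧ j ≠ k ∧ i ≠ k ∧
      ‖x i - x j‖ ≤ 1 ∧ ‖x j - x k‖ ≤ 1 ∧ 1 + δ ≤ ‖x i - x k‖ := by
  obtain ⟨m, hm⟩ := exists_M hδ
  set M := m + 2 with hM
  set α : ℝ := ‖1 - cc (1 : ZMod M)‖ ^ 2 with hα
  set β : ℝ := ‖1 - cc ((1 : ZMod M) + 1)‖ ^ 2 with hβ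
  have hα0 : 0 < α := by
    have : 0 < ‖1 - cc (1 : ZMod M)‖ := norm_pos_iff.2 (sub_ne_zero.2 (Ne.symm cc_one_ne))
    positivity
  have hβα : β = α * ‖1 + cc (1 : ZMod M)‖ ^ 2 := by
    rw [hβ, hα, ← mul_pow, ← norm_mul, cc_add]
    congr 2
    ring
  have hη : 0 < β - (1 + δ) ^ 2 * α := by
    rw [hβα]
    have h1 : (1 + δ) ^ 2 < ‖1 + cc (1 : ZMod M)‖ ^ 2 := pow_lt_pow_left₀ hm (by linarith) (by norm_num)
    nlinarith
  set K : ℝ := √(1 / (2 * lam)) + √2 with hK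
  have hK0 : 0 < K := by positivity
  obtain ⟨d, hd1, hd⟩ := exists_d (L := 8 * K * (1 + (1 + δ) ^ 2)) hη
  have hdR : (1 : ℝ) ≤ d := by exact_mod_cast hd1
  set r : ℝ := K * √d with hr
  have hr0 : 0 ≤ r := by positivity
  have hr1 : √(d / (2 * lam)) + √(2 * d) ≤ r := by
    rw [hr, hK, add_mul, ← Real.sqrt_mul (by positivity), ← Real.sqrt_mul (by norm_num)]
    apply le_of_eq
    congr 2
    ring
  set D : ℝ := d * α + 8 * r with hD
  have hD0 : 0 < D := by positivity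
  set R : ℝ := √(1 / D) with hR
  have hR2 : R ^ 2 = 1 / D := Real.sq_sqrt (by positivity)
  -- orthonormal vectors
  set v : Fin d × Fin 2 → H := fun k => e (2 * k.1 + k.2) with hv
  have hvo : Orthonormal ℝ v := by
    apply he.comp (fun k : Fin d × Fin 2 => 2 * (k.1 : ℕ) + (k.2 : ℕ))
    rintro ⟨a, b⟩ ⟨a', b'⟩ h
    simp only at h
    have h1 := b.isLt
    have h2 := b'.isLt
    have h3 : (a : ℕ) = a' := by omega
    have h4 : (b : ℕ) = b' := by omega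
    exact Prod.ext (Fin.ext h3) (Fin.ext h4)
  set E := Fintype.equivFin (Fin d → ZMod M) with hE
  set n := Fintype.card (Fin d → ZMod M) with hn
  have hn1 : 1 ≤ n := Fintype.card_pos
  refine ⟨n, hn1, fun i => pp v R (E.symm i), ?_⟩
  intro I hI
  set A : Finset (Fin d → ZMod M) := I.image E.symm with hA
  have hAc : A.card = I.card := card_image_of_injective _ E.symm.injective
  have hAn : A.Nonempty := by
    rw [← card_pos, hAc]
    have h1 : 0 < lam * n := by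
      have : (0 : ℝ) < n := by exact_mod_cast hn1
      positivity
    have h2 : (0 : ℝ) < I.card := lt_of_lt_of_le h1 hI
    exact_mod_cast h2
  obtain ⟨X, ⟨a1, ha1, h1⟩, ⟨a2, ha2, h2⟩, ⟨a3, ha3, h3⟩⟩ :=
    exists_near hd1 A hAn hlam (by rw [hAc]; exact hI) hr1 (fun _ => 1) (fun _ => 1 + 1)
  have q1 : ∀ j, qq (X j) ((X + fun _ => 1 : Fin d → ZMod M) j) = α := by
    intro j
    simp only [Pi.add_apply]
    rw [qq_add]
  have q3 : ∀ j, qq (X j) ((X + fun _ => 1 + 1 : Fin d → ZMod M) j) = β := by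
    intro j
    simp only [Pi.add_apply]
    rw [qq_add]
  have q2 : ∀ j, qq ((X + fun _ => 1 : Fin d → ZMod M) j)
      ((X + fun _ => 1 + 1 : Fin d → ZMod M) j) = α := by
    intro j
    simp only [Pi.add_apply]
    rw [← add_assoc, qq_add]
  have s1 := abs_le.1 (sum_qq h1 h2 q1)
  have s2 := abs_le.1 (sum_qq h2 h3 q2)
  have s3 := abs_le.1 (sum_qq h1 h3 q3)
  have small : ∀ x y : Fin d → ZMod M, ∑ j, qq (x j) (y j) ≤ D →
      ‖pp v R x - pp v R y‖ ≤ 1 := by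
    intro x y h
    have h4 : ‖pp v R x - pp v R y‖ ^ 2 ≤ 1 := by
      rw [norm_pp hvo, hR2, one_div, inv_mul_le_iff₀ hD0]
      linarith
    nlinarith [norm_nonneg (pp v R x - pp v R y)]
  have D12 : ‖pp v R a1 - pp v R a2‖ ≤ 1 := small _ _ (by rw [hD]; linarith [s1.2])
  have D23 : ‖pp v R a2 - pp v R a3‖ ≤ 1 := small _ _ (by rw [hD]; linarith [s2.2])
  have D13 : 1 + δ ≤ ‖pp v R a1 - pp v R a3‖ := by
    apply le_of_sq_le_sq _ (norm_nonneg _)
    rw [norm_pp hvo, hR2, one_div, ← div_eq_inv_mul, le_div_iff₀ hD0]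
    have h5 : (d : ℝ) * β - 8 * r ≤ ∑ j, qq (a1 j) (a3 j) := by linarith [s3.1]
    refine le_trans ?_ h5
    rw [hD, hr]
    nlinarith
  obtain ⟨i, hi, hi'⟩ := mem_image.1 ha1
  obtain ⟨j, hj, hj'⟩ := mem_image.1 ha2
  obtain ⟨k, hk, hk'⟩ := mem_image.1 ha3
  refine ⟨i, hi, j, hj, k, hk, ?_, ?_, ?_, ?_, ?_, ?_⟩
  · rintro rfl
    have : a1 = a2 := by rw [← hi', ← hj']
    rw [this] at D13
    linarith
  · rintro rfl
    have : a2 = a3 := by rw [← hj', ← hk']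
    rw [this] at D12
    linarith
  · rintro rfl
    have : a1 = a3 := by rw [← hi', ← hk']
    rw [this, sub_self, norm_zero] at D13
    linarith
  · beta_reduce; rw [hi', hj']; exact D12
  · beta_reduce; rw [hj', hk']; exact D23
  · beta_reduce; rw [hi', hk']; exact D13

/-- three points with two distances at most one and the third at least two -/
theorem norm_identity {x y z : H} (h1 : ‖x - y‖ ≤ 1) (h2 : ‖y - z‖ ≤ 1) (h3 : 2 ≤ ‖x - z‖) :
    ‖x‖ ^ 2 + ‖z‖ ^ 2 - 2 * ‖y‖ ^ 2 = 2 := by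
  have hp := parallelogram_law_with_norm ℝ (x - y) (y - z)
  have e1 : x - y + (y - z) = x - z := by abel
  rw [e1] at hp
  have h4 : ‖x - y - (y - z)‖ = 0 ∧ ‖x - z‖ = 2 := by
    have g1 := norm_nonneg (x - y - (y - z))
    have g2 := norm_nonneg (x - y)
    have g3 := norm_nonneg (y - z)
    constructor
    · nlinarith
    · nlinarith
  have h5 : x - y - (y - z) = 0 := norm_eq_zero.1 h4.1
  have h6 : x + z = y + y := by
    have : x + z - (y + y) = 0 := by rw [← h5]; abel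
    exact sub_eq_zero.1 this
  have hq := parallelogram_law_with_norm ℝ x z
  rw [h6, h4.2] at hq
  have h7 : ‖y + y‖ = 2 * ‖y‖ := by
    rw [← two_smul ℝ y, norm_smul]
    norm_num
  rw [h7] at hq
  nlinarith

/-- a quarter of the points is free of bad triangles for `δ ≥ 1` -/
theorem holds {δ : ℝ} (hδ : 1 ≤ δ) {n : ℕ} (x : Fin n → H) :
    ∃ I : Finset (Fin n), 1 / 4 * (n : ℝ) ≤ I.card ∧ ∀ i ∈ I, ∀ j ∈ I, ∀ k ∈ I,
      ¬ Bad δ (x i) (x j) (x k) := by
  set c : Fin n → ZMod 4 := fun i => ((⌊‖x i‖ ^ 2⌋ : ℤ) : ZMod 4) with hc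
  have hpig : ∃ t : ZMod 4, (n : ℝ) ≤ 4 * ((univ.filter fun i => c i = t).card : ℝ) := by
    by_contra hcon
    push Not at hcon
    have h1 : ∑ t : ZMod 4, (univ.filter fun i => c i = t).card = n := by
      rw [← card_eq_sum_card_fiberwise (fun i _ => mem_coe.2 (mem_univ (c i)))]
      simp
    have h2 : ∑ t : ZMod 4, (4 * ((univ.filter fun i => c i = t).card : ℝ)) <
        ∑ _t : ZMod 4, (n : ℝ) :=
      sum_lt_sum_of_nonempty ⟨0, mem_univ _⟩ fun t _ => hcon t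
    rw [← mul_sum, sum_const, card_univ, ZMod.card, nsmul_eq_mul] at h2
    have h3 : (∑ t : ZMod 4, ((univ.filter fun i => c i = t).card : ℝ)) = n := by
      exact_mod_cast h1
    rw [h3] at h2
    push_cast at h2
    exact lt_irrefl _ h2
  obtain ⟨t, ht⟩ := hpig
  refine ⟨univ.filter fun i => c i = t, by linarith, ?_⟩
  -- the main point
  have key : ∀ i j k, c i = t → c j = t → c k = t →
      ‖x i - x j‖ ≤ 1 → ‖x j - x k‖ ≤ 1 → ¬ 1 + δ ≤ ‖x i - x k‖ := by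
    intro i j k hi hj hk h1 h2 h3
    have h4 := norm_identity h1 h2 (by linarith)
    have h5 : ((⌊‖x i‖ ^ 2⌋ + ⌊‖x k‖ ^ 2⌋ - 2 * ⌊‖x j‖ ^ 2⌋ : ℤ) : ZMod 4) = 0 := by
      push_cast
      simp only [hc] at hi hj hk
      rw [hi, hj, hk]
      ring
    rw [ZMod.intCast_zmod_eq_zero_iff_dvd] at h5
    obtain ⟨q, hq⟩ := h5
    have a1 := Int.floor_le (‖x i‖ ^ 2)
    have a2 := Int.lt_floor_add_one (‖x i‖ ^ 2)
    have b1 := Int.floor_le (‖x j‖ ^ 2)
    have b2 := Int.lt_floor_add_one (‖x j‖ ^ 2)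
    have c1 := Int.floor_le (‖x k‖ ^ 2)
    have c2 := Int.lt_floor_add_one (‖x k‖ ^ 2)
    have hqR : ((⌊‖x i‖ ^ 2⌋ : ℝ) + ⌊‖x k‖ ^ 2⌋ - 2 * ⌊‖x j‖ ^ 2⌋) = 4 * (q : ℝ) := by
      exact_mod_cast hq
    have d1 : (0 : ℝ) < 4 * q := by linarith
    have d2 : (4 : ℝ) * q < 4 := by linarith
    have d3 : 0 < q := by
      have : (0 : ℝ) < q := by linarith
      exact_mod_cast this
    have d4 : q < 1 := by
      have : (q : ℝ) < 1 := by linarith
      exact_mod_cast this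
    omega
  intro i hi j hj k hk hbad
  have hi' := (mem_filter.1 hi).2
  have hj' := (mem_filter.1 hj).2
  have hk' := (mem_filter.1 hk).2
  rcases hbad with ⟨h1, h2, h3⟩ | ⟨h1, h2, h3⟩ | ⟨h1, h2, h3⟩
  · exact key i j k hi' hj' hk' h1 h2 h3
  · exact key j i k hj' hi' hk' (by rwa [norm_sub_rev]) h2 h3
  · exact key i k j hi' hk' hj' h1 (by rwa [norm_sub_rev]) h3

end

end Pool.Agent.HB75
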