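import Pool.Agent.HB75.Blow

set_option autoImplicit false

/-!
The points of a discrete torus in a Hilbert space.
-/

namespace Pool.Agent.HB75

open Finset

section
variable {M : ℕ} [NeZero M]

/-- the embedding of the cyclic group in the unit circle -/
noncomputable def cc (x : ZMod M) : ℂ := (ZMod.toCircle x : ℂ)

theorem norm_cc (x : ZMod M) : ‖cc x‖ = 1 := Circle.norm_coe _

theorem cc_add (x y : ZMod M) : cc (x + y) = cc x * cc y := by
  unfold cc
  rw [AddChar.map_add_eq_mul, Circle.coe_mul]

/-- squared distance of two points of the circle -/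
noncomputable def qq (x y : ZMod M) : ℝ := ‖cc x - cc y‖ ^ 2

theorem qq_nonneg (x y : ZMod M) : 0 ≤ qq x y := sq_nonneg _

theorem qq_le (x y : ZMod M) : qq x y ≤ 4 := by
  unfold qq
  have h1 : ‖cc x - cc y‖ ≤ 2 := by
    refine (norm_sub_le _ _).trans ?_
    rw [norm_cc, norm_cc]
    norm_num
  nlinarith [norm_nonneg (cc x - cc y)]

theorem qq_add (x g : ZMod M) : qq x (x + g) = ‖1 - cc g‖ ^ 2 := by
  unfold qq
  have : cc x - cc (x + g) = cc x * (1 - cc g) := by rw [cc_add]; ring
  rw [this, norm_mul, norm_cc, one_mul]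

theorem sum_qq {d : ℕ} {u v U V : Fin d → ZMod M} {r Q : ℝ} (hu : (hammingDist U u : ℝ) ≤ r)
    (hv : (hammingDist V v : ℝ) ≤ r) (hQ : ∀ j, qq (U j) (V j) = Q) :
    |∑ j, qq (u j) (v j) - d * Q| ≤ 8 * r := by
  have h1 : (d : ℝ) * Q = ∑ j : Fin d, qq (U j) (V j) := by
    simp only [hQ, sum_const, card_univ, Fintype.card_fin, nsmul_eq_mul]
  rw [h1, ← sum_sub_distrib]
  refine (abs_sum_le_sum_abs _ _).trans ?_
  have h2 : ∀ j : Fin d, |qq (u j) (v j) - qq (U j) (V j)| ≤
      4 * ((if U j ≠ u j then 1 else 0) + (if V j ≠ v j then 1 else 0)) := by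
    intro j
    by_cases h3 : U j = u j
    · by_cases h4 : V j = v j
      · rw [h3, h4]; simp
      · rw [if_neg (by simpa using h3), if_pos h4, abs_le]
        have := qq_nonneg (u j) (v j)
        have := qq_nonneg (U j) (V j)
        have := qq_le (u j) (v j)
        have := qq_le (U j) (V j)
        constructor <;> linarith
    · rw [if_pos h3, abs_le]
      have := qq_nonneg (u j) (v j)
      have := qq_nonneg (U j) (V j)
      have := qq_le (u j) (v j)
      have := qq_le (U j) (V j)
      have h5 : (0 : ℝ) ≤ (if V j ≠ v j then 1 else 0) := by split_ifs <;> norm_num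
      constructor <;> linarith
  refine (sum_le_sum fun j _ => h2 j).trans ?_
  rw [← mul_sum, sum_add_distrib]
  have h6 : ∑ j : Fin d, (if U j ≠ u j then (1 : ℝ) else 0) = hammingDist U u := by
    unfold hammingDist
    rw [card_filter]
    push_cast
    rfl
  have h7 : ∑ j : Fin d, (if V j ≠ v j then (1 : ℝ) else 0) = hammingDist V v := by
    unfold hammingDist
    rw [card_filter]
    push_cast
    rfl
  rw [h6, h7]
  linarith

end

section
variable {H : Type*} [NormedAddCommGroup H] [InnerProductSpace ℝ H] {M : ℕ} [NeZero M] {d : ℕ}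

/-- real coordinates -/
noncomputable def co (x : Fin d → ZMod M) (k : Fin d × Fin 2) : ℝ :=
  if k.2 = 0 then (cc (x k.1)).re else (cc (x k.1)).im

/-- the points -/
noncomputable def pp (v : Fin d × Fin 2 → H) (R : ℝ) (x : Fin d → ZMod M) : H :=
  ∑ k, (R * co x k) • v k

theorem norm_pp {v : Fin d × Fin 2 → H} (hv : Orthonormal ℝ v) (R : ℝ) (x y : Fin d → ZMod M) :
    ‖pp v R x - pp v R y‖ ^ 2 = R ^ 2 * ∑ j, qq (x j) (y j) := by
  have h1 : pp v R x - pp v R y = ∑ k, (R * co x k - R * co y k) • v k := by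
    unfold pp
    rw [← sum_sub_distrib]
    apply sum_congr rfl
    intro k _
    rw [sub_smul]
  rw [h1, ← real_inner_self_eq_norm_sq, hv.inner_sum]
  rw [Fintype.sum_prod_type, mul_sum]
  apply sum_congr rfl
  intro j _
  rw [Fin.sum_univ_two]
  unfold qq
  rw [← Complex.normSq_eq_norm_sq, Complex.normSq_apply]
  simp only [co, if_true, Fin.isValue, one_ne_zero, if_false, Complex.sub_re, Complex.sub_im,
    conj_trivial]
  ring

end

end Pool.Agent.HB75
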